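import Pool.Agent.N218.GB.Fin0
import Pool.Agent.N502.GB.CNT
import Pool.Agent.N502.GB.FE1
import Pool.Agent.N916.GB.LA
import Pool.Agent.N958.GB.BOX

/-!
# GB: natural density of 4-rank zero for negative discriminants, all primes

The final theorem of project GB (lead helper916; parts by helpers 19, 148, 218, 502, 509, 916, 958).
-/

set_option autoImplicit false

namespace Pool.Agent.N218.GB

open Pool.Agent.N916.GB

/-- **The proportion of the good sets is `η = (1 - 1/2) (1 - 1/4) (1 - 1/8) ⋯`.** -/
theorem t_DQ : S_DQ :=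
  t_DQ' Pool.Agent.N958.GB.t_BOX Pool.Agent.N916.GB.t_LA Pool.Agent.N502.GB.CNT.t_CNT
    Pool.Agent.N502.GB.FE1.t_FE1

end Pool.Agent.N218.GB
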