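import Pool.Agent.N218.GB.Asy
import Pool.Agent.N218.GB.KEY
import Pool.Agent.N19.GB.Parts
import Pool.Agent.N148.GB.HAL
import Pool.Agent.N148.GB.BAD
import Pool.Agent.N509.GB.FE2
import Pool.Agent.Y488.CX.Sie

/-!
# GB: the proportion of the good sets, from the four remaining parts
-/

set_option autoImplicit false

namespace Pool.Agent.N218.GB

open Pool.Agent.N916.GB

/-- the final theorem from `S_BOX`, `S_LA`, `CntP` and `S_FE1` -/
theorem t_DQ' (hBOX : S_BOX) (hLA : S_LA) (hC : CntP) (hF1 : S_FE1) : S_DQ :=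
  Asy.t_DQ Pool.Agent.N19.GB.t_BIL Pool.Agent.N19.GB.t_EQ hLA hBOX KEY.t_KEY hC
    Pool.Agent.Y488.CX.t_SIE Pool.Agent.N148.GB.t_HAL Pool.Agent.N19.GB.t_ME8
    Pool.Agent.N148.GB.t_BAD hF1 Pool.Agent.N509.GB.FE2.t_FE2 Pool.Agent.N19.GB.t_ND

end Pool.Agent.N218.GB
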